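import Pool.Agent.U450.BY.Fin

set_option autoImplicit false

/-!
# Symplectic four-manifolds with `3 σ = χ` and finite fundamental group

`OnlyPlane` is Q1: every closed simply connected symplectic four-manifold with `3 σ = χ` is the
projective plane. The theorem: Q1 is equivalent to the same statement for all closed symplectic
four-manifolds with *finite* fundamental group, and to the single strict inequality `c₁² < 3 c₂` for
all of them except the projective plane; then even `c₁² ≤ 3 c₂ - 4`. Every manifold `X`, not the
projective plane, with finite fundamental group of order `n` and `c₁² = 3 c₂ + 4 k`, `k ≥ 0`, gives an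
explicit counterexample to Q1: the universal covering of `X`, blown up at `n k` points. It is simply
connected, on the line `3 σ = χ`, with Euler characteristic `n (χ(X) + k)`.

Proof. Universal coverings multiply `χ` and `σ` by `n`, blow-ups lower `3 σ - χ` by four, and `4`
divides `3 σ - χ` (congruence of Noether). If the blown up covering is the projective plane, then its
second Betti number is one, so `k = 0`, and `1 = n σ(X)`, so `n = 1`.
-/

namespace Pool.Agent.Results.MP_dbd540_gt.FiniteFundamentalGroups

open Pool.Agent.U644.BY Pool.Agent.U450.BY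

universe u

/-- **Theorem.** Let `S` be the data of the closed connected symplectic four-manifolds and `C` those
of their fundamental groups and universal coverings. -/
theorem result (S : Symp.{u}) (C : Cov S) :
    (S.OnlyPlane ↔ ∀ X, C.ord X ≠ 0 → 3 * S.sg X = S.e X → X = S.cp2) ∧
    (S.OnlyPlane ↔ ∀ X, C.ord X ≠ 0 → X ≠ S.cp2 → S.c1sq X < 3 * S.e X) ∧
    (S.OnlyPlane ↔ ∀ X, C.ord X ≠ 0 → X ≠ S.cp2 → S.c1sq X ≤ 3 * S.e X - 4) ∧
    (S.OnlyPlane ↔ ∀ X, S.sc X → S.Minimal X → X ≠ S.cp2 → S.c1sq X ≤ 3 * S.e X - 4) ∧
    ∀ X, C.ord X ≠ 0 → X ≠ S.cp2 → 3 * S.e X ≤ S.c1sq X →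
      ∃ k : ℕ, S.c1sq X = 3 * S.e X + 4 * k ∧
        S.sc (blow S (C.uc X) (C.ord X * k)) ∧
        3 * S.sg (blow S (C.uc X) (C.ord X * k)) = S.e (blow S (C.uc X) (C.ord X * k)) ∧
        blow S (C.uc X) (C.ord X * k) ≠ S.cp2 ∧
        S.e (blow S (C.uc X) (C.ord X * k)) = C.ord X * (S.e X + k) := by
  have key : S.OnlyPlane → ∀ X, C.ord X ≠ 0 → X ≠ S.cp2 → S.c1sq X ≤ 3 * S.e X - 4 := by
    intro hS X h hX
    have h1 := neg_of_onlyPlane C hS X h hX
    rw [c1sq_eq C X]
    linarith
  have hone : ∀ X, S.sc X → C.ord X ≠ 0 := by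
    intro X hX
    rw [(C.ord_sc X).2 hX]
    exact one_ne_zero
  refine ⟨⟨?_, ?_⟩, ⟨?_, ?_⟩, ⟨key, ?_⟩, ⟨?_, ?_⟩, explicit C⟩
  · intro hS X h hX
    by_contra hne
    have h1 := neg_of_onlyPlane C hS X h hne
    unfold exc at h1
    omega
  · exact fun h X hX => h X (hone X hX)
  · intro hS X h hX
    have := key hS X h hX
    omega
  · intro h X hX hl
    by_contra hne
    have h1 := h X (hone X hX) hne
    unfold Symp.c1sq at h1
    omega
  · intro h X hX hl
    by_contra hne
    have h1 := h X (hone X hX) hne
    unfold Symp.c1sq at h1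
    omega
  · exact fun hS X hX _ hne => key hS X (hone X hX) hne
  · intro h
    refine onlyPlane_iff_minimal.2 ⟨fun X hX hm hb => ?_, fun X hX hb => ?_⟩
    · have hne : X ≠ S.cp2 := by
        rintro rfl
        rw [b2_cp2] at hb
        omega
      have h1 := h X hX hm hne
      unfold Symp.c1sq at h1
      omega
    · by_contra hne
      have hm : S.Minimal X := by
        intro Y hY
        have h2 := b2_blow (S := S) Y 1
        have h3 : blow S Y 1 = X := hY
        have h4 := b2_pos (S := S) Y
        rw [h3, hb] at h2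
        omega
      have h1 := h X hX hm hne
      have h2 := exc_of_b2_one X hX hb
      unfold exc at h2
      unfold Symp.c1sq at h1
      omega

end Pool.Agent.Results.MP_dbd540_gt.FiniteFundamentalGroups
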