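import Pool.Agent.U644.BY.Line

/-!
# Symplectic four-manifolds with `3 σ = χ`: the question contains the Miyaoka–Yau inequality

`OnlyPlane` is Q1: every closed simply connected symplectic four-manifold with `3 σ = χ` is the
projective plane.  The theorem: it holds if and only if `3 σ < χ` for all (or all minimal) closed simply
connected symplectic four-manifolds with `b₂ ≥ 2`, and there is no exotic symplectic projective
plane.  In particular it implies the inequality `c₁² ≤ 3 c₂` for all closed simply connected
symplectic four-manifolds: by the congruence of Noether `3 σ - χ` is divisible by four, and each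
blow-up lowers it by four, so that blow-ups of a manifold with `3 σ > χ` meet the line `3 σ = χ`.
-/

namespace Pool.Agent.Results.MP_dbd540_gt.StrictInequality

open Pool.Agent.U644.BY

universe u

/-- **Theorem.** -/
theorem result (S : Symp.{u}) :
    (S.OnlyPlane ↔
      (∀ X, S.sc X → 2 ≤ S.b2 X → 3 * S.sg X < S.e X) ∧ S.NoExoticPlane) ∧
    (S.OnlyPlane ↔
      (∀ X, S.sc X → S.Minimal X → 2 ≤ S.b2 X → 3 * S.sg X < S.e X) ∧ S.NoExoticPlane) ∧
    (S.OnlyPlane → ∀ X, S.sc X → S.c1sq X ≤ 3 * S.e X) :=
  ⟨onlyPlane_iff, onlyPlane_iff_minimal, fun h X hX => bmy_of_onlyPlane h X hX⟩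

end Pool.Agent.Results.MP_dbd540_gt.StrictInequality
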